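import Pool.Agent.U742.LA.Fi
import Pool.Agent.N831.LP.I

/-!
# Zero counts for completed L-functions above and below the real axis

`P3 κ X`: the data `P2` of the density theorems together with the Riemann-von Mangoldt formula (in the form `Cnt` of
`Pool.Agent.U742.LA`) for `X` and for the dual function, that is for the zeros above and below the real axis.
-/

set_option autoImplicit false

open Filter Topology Complex
open scoped ComplexConjugate

namespace Pool.Agent.U156.LB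

open Pool.Agent.U742.LA (zw Nr Rm Cnt oX oX_nn cnt_of AllLaw allLaw LawL LawA)
open Pool.Agent.N831.LP
open Pool.Agent.Y671.GL
open Pool.Agent.R838.TW (top_ne)

noncomputable section

/-- density theorems and zero counts on both sides of the real axis -/
def P3 (κ : ℝ) (X : ℂ → ℂ) : Prop := P2 κ X ∧ Cnt κ X ∧ Cnt κ (dl X)

lemma cnt_congr {κ : ℝ} {X Y : ℂ → ℂ} (h : ∀ z, analyticOrderNatAt X z = analyticOrderNatAt Y z) (hX : Cnt κ X) : Cnt κ Y := by
  have e : oX X = oX Y := by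
    funext z
    unfold oX
    rw [h z]
  unfold Cnt at hX ⊢
  rw [e] at hX
  exact hX

lemma cnt_P2 {κ : ℝ} {X : ℂ → ℂ} (h : P2 κ X) : Cnt κ X := by
  obtain ⟨H, Z, hG⟩ := h.pl.gy
  exact cnt_of hG.cg h.pl.strip

/-- **One form.** -/
theorem p3_of {k N : ℕ} [NeZero N] {ps lam : ℕ → ℂ} {M Q : ℝ} {F : ℂ → ℂ} (hk : 1 ≤ k) (hM : 1 ≤ M) (hQ : 1 ≤ Q)
    (hFE : W388.FE2 k M Q F) (hf : Frm k N ps lam) (hL : IsL lam F) (hN : Real.sqrt (N : ℝ) = Real.sqrt M * Q) :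
    ∃ (v : ℂ) (X : ℂ → ℂ), P3 1 X ∧ v ≠ 0 ∧
      ∀ z : ℂ, 1 / 2 < z.re → X z = v * (W388.GG k M Q (1 / 2 + z) * F (1 / 2 + z)) := by
  have hM0 : 0 < M := by linarith
  have hQ0 : 0 < Q := by linarith
  obtain ⟨v, X, hP, hv, hX⟩ := p2_of hk hM hQ hFE hf hL hN
  obtain ⟨v', X', hP', hv', hX'⟩ := p2_of hk hM hQ (fe2_dual hM0 hQ0 hFE) (frm_dual hf) (isL_dual hL) hN
  -- the dual function
  have hdl : ∀ z, dl X z = (conj v / v') * X' z := by
    have h1 : ∀ z : ℂ, 1 / 2 < z.re → dl X z = (conj v / v') * X' z := by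
      intro z hz
      unfold dl
      rw [hX (conj z) (by simpa using hz), hX' z hz, map_mul, map_mul]
      have e : (1 / 2 + conj z : ℂ) = conj (1 / 2 + z) := by
        rw [map_add, map_div₀, map_one, Complex.conj_ofNat]
      rw [e, GG_conj hM0 hQ0, Complex.conj_conj]
      unfold dl
      field_simp
    have h2 : AnalyticOnNhd ℂ (dl X) Set.univ := fun z _ => (dl_diff hP.pl.diff).analyticAt z
    have h3 : AnalyticOnNhd ℂ (fun z => (conj v / v') * X' z) Set.univ := fun z _ =>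
      (hP'.pl.diff.const_mul _).analyticAt z
    have h4 : dl X =ᶠ[𝓝 (1 : ℂ)] fun z => (conj v / v') * X' z := by
      have : {z : ℂ | 1 / 2 < z.re} ∈ 𝓝 (1 : ℂ) :=
        (isOpen_lt continuous_const Complex.continuous_re).mem_nhds (by norm_num)
      filter_upwards [this] with z hz using h1 z hz
    have h5 := h2.eqOn_of_preconnected_of_eventuallyEq h3 isPreconnected_univ (Set.mem_univ 1) h4
    exact fun z => h5 (Set.mem_univ z)
  have hcne : conj v / v' ≠ 0 := div_ne_zero ((map_ne_zero _).2 hv) hv'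
  have hord : ∀ z, analyticOrderNatAt (dl X) z = analyticOrderNatAt X' z :=
    order_const_mul hP'.pl.diff hcne hdl
  exact ⟨v, X, ⟨hP, cnt_P2 hP, cnt_congr (fun z => (hord z).symm) (cnt_P2 hP')⟩, hv, hX⟩

/-! ### products -/

lemma zw_eq (M : ℂ → ℝ) (T1 T2 : ℝ) : zw M T1 T2 = {z : ℂ | T1 < z.im ∧ z.im ≤ T2} ∩ Function.support M := by
  ext z
  constructor
  · rintro ⟨h1, h2⟩
    exact ⟨h2, h1⟩
  · rintro ⟨h1, h2⟩
    exact ⟨h2, h1⟩

lemma nr_eq (M : ℂ → ℝ) (T1 T2 : ℝ) : Nr M T1 T2 = ∑ᶠ z ∈ {z : ℂ | T1 < z.im ∧ z.im ≤ T2}, M z := by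
  unfold Nr
  rw [zw_eq, finsum_mem_inter_support]

/-- the counts add up -/
lemma nr_add {M M1 M2 : ℂ → ℝ} (h : ∀ z, M z = M1 z + M2 z) {T1 T2 : ℝ} (h1 : (zw M1 T1 T2).Finite)
    (h2 : (zw M2 T1 T2).Finite) : (zw M T1 T2).Finite ∧ Nr M T1 T2 = Nr M1 T1 T2 + Nr M2 T1 T2 := by
  constructor
  · refine (h1.union h2).subset ?_
    rintro z ⟨a1, a2⟩
    by_cases h3 : M1 z = 0
    · refine Or.inr ⟨fun h4 => a1 ?_, a2⟩
      rw [h, h3, h4, add_zero]
    · exact Or.inl ⟨h3, a2⟩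
  · rw [nr_eq, nr_eq, nr_eq, ← finsum_mem_add_distrib' (by rw [← zw_eq]; exact h1) (by rw [← zw_eq]; exact h2)]
    exact finsum_mem_congr rfl fun z _ => h z

lemma Cnt.mul {κ κ' : ℝ} {X X' : ℂ → ℂ} (hX : Differentiable ℂ X) (hX' : Differentiable ℂ X') (h0 : X 1 ≠ 0)
    (h0' : X' 1 ≠ 0) (h1 : Cnt κ X) (h2 : Cnt κ' X') : Cnt (κ + κ') (fun s => X s * X' s) := by
  obtain ⟨C1, T1, hC1, hT1, a1⟩ := h1
  obtain ⟨C2, T2, hC2, hT2, a2⟩ := h2
  have ht1 := top_ne hX h0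
  have ht2 := top_ne hX' h0'
  have hord : ∀ s, oX (fun s => X s * X' s) s = oX X s + oX X' s := by
    intro s
    have h3 : analyticOrderAt (fun s => X s * X' s) s = analyticOrderAt X s + analyticOrderAt X' s :=
      analyticOrderAt_mul (hX.analyticAt s) (hX'.analyticAt s)
    have h4 : analyticOrderNatAt (fun s => X s * X' s) s = analyticOrderNatAt X s + analyticOrderNatAt X' s := by
      unfold analyticOrderNatAt
      rw [h3, ENat.toNat_add (ht1 s) (ht2 s)]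
    unfold oX
    rw [h4]
    push_cast
    rfl
  refine ⟨C1 + C2, max T1 T2, by positivity, hT1.trans (le_max_left _ _), fun T hT h hh hhT => ?_⟩
  obtain ⟨b1, b2⟩ := a1 T ((le_max_left _ _).trans hT) h hh hhT
  obtain ⟨b3, b4⟩ := a2 T ((le_max_right _ _).trans hT) h hh hhT
  obtain ⟨b5, b6⟩ := nr_add hord b1 b3
  refine ⟨b5, ?_⟩
  rw [b6]
  have e : Nr (oX X) T (T + h) + Nr (oX X') T (T + h) - h * Real.log T * ((κ + κ') / Real.pi) =
      (Nr (oX X) T (T + h) - h * Real.log T * (κ / Real.pi)) + (Nr (oX X') T (T + h) - h * Real.log T * (κ' / Real.pi)) := by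
    ring
  rw [e]
  refine (abs_add_le _ _).trans ?_
  linarith

lemma dl_one {X : ℂ → ℂ} (h : X 1 ≠ 0) : dl X 1 ≠ 0 := by
  unfold dl
  rw [map_one]
  exact (map_ne_zero _).2 h

/-- **Products.** -/
theorem P3.mul {κ κ' : ℝ} {X X' : ℂ → ℂ} (h1 : P3 κ X) (h2 : P3 κ' X') : P3 (κ + κ') (fun s => X s * X' s) := by
  refine ⟨h1.1.mul h2.1, Cnt.mul h1.1.pl.diff h2.1.pl.diff h1.1.pl.ne h2.1.pl.ne h1.2.1 h2.2.1, ?_⟩
  have e : dl (fun s => X s * X' s) = fun s => dl X s * dl X' s := by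
    funext s
    unfold dl
    rw [map_mul]
  rw [e]
  exact Cnt.mul (dl_diff h1.1.pl.diff) (dl_diff h2.1.pl.diff) (dl_one h1.1.pl.ne) (dl_one h2.1.pl.ne) h1.2.2 h2.2.2

theorem p3_prod {ι : Type*} [DecidableEq ι] (s : Finset ι) (hs : s.Nonempty) (X : ι → ℂ → ℂ)
    (h : ∀ i ∈ s, P3 1 (X i)) : P3 (s.card : ℝ) (fun w => ∏ i ∈ s, X i w) := by
  induction hs using Finset.Nonempty.cons_induction with
  | singleton a =>
    simp only [Finset.card_singleton, Finset.prod_singleton, Nat.cast_one]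
    exact h a (Finset.mem_singleton_self a)
  | cons a s ha hs ih =>
    have h1 := h a (Finset.mem_cons_self a s)
    have h2 := ih fun i hi => h i (Finset.mem_cons_of_mem hi)
    have h3 := h1.mul h2
    simp only [Finset.card_cons, Finset.prod_cons, Nat.cast_add, Nat.cast_one]
    rw [add_comm (s.card : ℝ) 1]
    exact h3

/-! ### the scaled data -/

lemma nr_scale {M : ℂ → ℝ} {T1 T2 : ℝ} (hf : (zw M (2 * T1) (2 * T2)).Finite) :
    (zw (fun z => M (2 * z)) T1 T2).Finite ∧ Nr (fun z => M (2 * z)) T1 T2 = Nr M (2 * T1) (2 * T2) := by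
  have him : ∀ z : ℂ, (2 * z).im = 2 * z.im := fun z => by simp
  have hbij : Set.BijOn (fun z : ℂ => 2 * z) (zw (fun z => M (2 * z)) T1 T2) (zw M (2 * T1) (2 * T2)) := by
    refine ⟨fun z hz => ?_, fun a _ b _ hab => ?_, fun w hw => ?_⟩
    · obtain ⟨a1, a2, a3⟩ := hz
      refine ⟨a1, ?_, ?_⟩
      · rw [him]; linarith
      · rw [him]; linarith
    · simpa using hab
    · obtain ⟨a1, a2, a3⟩ := hw
      have := him (w / 2)
      rw [show 2 * (w / 2) = w by ring] at this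
      refine ⟨w / 2, ⟨?_, ?_, ?_⟩, by ring⟩
      · show M (2 * (w / 2)) ≠ 0
        rw [show 2 * (w / 2) = w by ring]
        exact a1
      · linarith
      · linarith
  refine ⟨?_, ?_⟩
  · exact hbij.finite_iff_finite.2 hf
  · unfold Nr
    exact finsum_mem_eq_of_bijOn (fun z => 2 * z) hbij fun z _ => rfl

variable {κ0 : ℝ} {X : ℂ → ℂ}

/-- **the Riemann-von Mangoldt formula for the scaled data** -/
theorem rm_ms3 (hκ : 1 / 2 ≤ κ0) (h : P3 κ0 X) : Rm (MS X) (4 * κ0 / Real.pi) := by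
  obtain ⟨hP, ⟨C1, T1, hC1, hT1, c1⟩, ⟨C2, T2, hC2, hT2, c2⟩⟩ := h
  have hpi := Real.pi_gt_three
  have hκ0 : 0 < κ0 := by linarith
  have hMS : ∀ z, MS X z = oX X (2 * z) + oX (dl X) (2 * z) := by
    intro z
    unfold MS MX oX
    rw [dl_orderNat hP.pl.diff]
  refine Rm.of (zsX hκ hP) (by positivity) (C := 2 * C1 + 2 * C2 + 4 * κ0) (T0 := max T1 T2) (by positivity)
    fun T hT H h0 hH => ?_
  have hT30 : 30 ≤ T := hT1.trans ((le_max_left _ _).trans hT)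
  obtain ⟨f1, f2⟩ := c1 (2 * T) (by linarith [(le_max_left T1 T2).trans hT]) (2 * H) (by linarith) (by linarith)
  obtain ⟨g1, g2⟩ := c2 (2 * T) (by linarith [(le_max_right T1 T2).trans hT]) (2 * H) (by linarith) (by linarith)
  have e1 : 2 * T + 2 * H = 2 * (T + H) := by ring
  rw [e1] at f1 f2 g1 g2
  obtain ⟨f3, f4⟩ := nr_scale f1
  obtain ⟨g3, g4⟩ := nr_scale g1
  rw [(nr_add hMS f3 g3).2, f4, g4]
  obtain ⟨N, hN⟩ : ∃ N : ℝ, N = Nr (oX X) (2 * T) (2 * (T + H)) := ⟨_, rfl⟩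
  obtain ⟨N', hN'⟩ : ∃ N' : ℝ, N' = Nr (oX (dl X)) (2 * T) (2 * (T + H)) := ⟨_, rfl⟩
  rw [← hN] at f2 ⊢
  rw [← hN'] at g2 ⊢
  have e2 : N + N' - H * Real.log T * (4 * κ0 / Real.pi) =
      (N - 2 * H * Real.log (2 * T) * (κ0 / Real.pi)) + (N' - 2 * H * Real.log (2 * T) * (κ0 / Real.pi)) +
        4 * H * Real.log 2 * (κ0 / Real.pi) := by
    rw [Real.log_mul (by norm_num) (by linarith)]
    ring
  rw [e2]
  refine (abs_add_three _ _ _).trans ?_
  have hκp : κ0 / Real.pi ≤ κ0 := div_le_self hκ0.le (by linarith)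
  have hκp0 : 0 < κ0 / Real.pi := by positivity
  have hl2 : Real.log 2 ≤ 1 := by
    have := Real.log_two_lt_d9
    linarith
  have hl20 : 0 ≤ Real.log 2 := Real.log_nonneg (by norm_num)
  have e3 : |4 * H * Real.log 2 * (κ0 / Real.pi)| ≤ 4 * κ0 * T := by
    rw [abs_of_nonneg (by positivity)]
    calc 4 * H * Real.log 2 * (κ0 / Real.pi) ≤ 4 * T * 1 * κ0 := by gcongr
      _ = _ := by ring
  linarith

/-- **the law of the Li coefficients** -/
theorem allLaw3 {Λ : ℂ → ℂ} {v : ℂ} (hκ0 : 1 / 2 ≤ κ0) (hv : v ≠ 0) {x : ℝ}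
    (h : P3 κ0 (fun z => v * Λ ((x : ℂ) + z)))
    {L : ℝ → ℕ → ℝ} (hL : ∀ a n, L a n = ∑' ρ : {ρ : ℂ // Λ ρ = 0}, (analyticOrderNatAt Λ ρ : ℝ) *
      (1 - (((ρ : ℂ) - a) / (ρ + a - 2 * x)) ^ n).re) : AllLaw Λ L x (2 * κ0) :=
  allLaw hκ0 hv h.1 (rm_ms3 hκ0 h) hL

/-- the coefficients in the range of the law are positive -/
theorem law_pos {L : ℝ → ℕ → ℝ} {D κ : ℝ} (hD : 0 < D) (h : LawL L D κ) :
    ∀ᶠ a : ℝ in atTop, ∀ n : ℕ, 1 ≤ n → (n : ℝ) ≤ κ * a * Real.log a → 0 < L a n := by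
  filter_upwards [h (D / 2) (by positivity), eventually_gt_atTop (1 : ℝ)] with a ha ha1 n hn hnk
  have h1 := (abs_le.1 (ha n hn hnk)).1
  have hn1 : (1 : ℝ) ≤ n := by exact_mod_cast hn
  have h2 : 1 < (n : ℝ) * a := by nlinarith
  have h3 : 0 < (n : ℝ) * a * Real.log (n * a) := mul_pos (by linarith) (Real.log_pos h2)
  nlinarith [mul_pos hD h3]

end

end Pool.Agent.U156.LB
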