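import Pool.Agent.R838.TW.Part
import Pool.Agent.R838.NB.Form
import Pool.Agent.U156.LB.P3

set_option autoImplicit false

/-!
# The data `P3` for newforms, their twists, and products

The statements and proofs are those of the starting file `Pool.Agent.N831.LP.I` with `P3` in place of `P2`.
-/

namespace Pool.Agent.U156.LB

open Pool.Agent.N831.LP (dl)

open UpperHalfPlane hiding I
open MatrixGroups CongruenceSubgroup Filter Topology Complex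
open Pool.Agent.Y671.GL
open Pool.Agent.Y771.NF (lm psN frm_newf)
open Pool.Agent.Y693.GL (lx psx frm_tw l2)
open Pool.Agent.W169.HF (IsForm coef)
open Pool.Agent.W355.UN (facE prodE Pk coprime_cond isNewf_of)
open Pool.Agent.R838.TW (exists_L uniq euler_tw)
open Pool.Agent.R838.NB (exists_LC euler_twc lxc lmc frm_twc frm_newfC one_val)
open scoped ComplexConjugate

section form

variable {N : ℕ} [NeZero N] {k : ℕ} {f : CuspForm (Gamma0 N : Subgroup (GL (Fin 2) ℝ)) (k : ℤ)} {ε : ℝ}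
variable {q : ℕ} [NeZero q] {χ : DirichletCharacter ℂ q}

/-- **Twists of newforms.** -/
theorem p3_tw (hk : 1 ≤ k) (hf : W388.IsNewf N k f ε) (hχ : χ.IsPrimitive) (hco : Nat.Coprime q N) :
    ∃ (X F : ℂ → ℂ) (v : ℂ), P3 1 X ∧ v ≠ 0 ∧ IsL (lx f χ) F ∧
      ∀ s : ℂ, 1 < s.re → X (s - 1 / 2) = v * (W388.GG k N q s * F s) := by
  obtain ⟨F, hFE, hL⟩ := exists_L hk hf hχ hco
  have hfm := frm_tw hk hf hχ hco
  have hN1 : (1 : ℝ) ≤ N := by exact_mod_cast Nat.one_le_iff_ne_zero.2 (NeZero.ne N)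
  have hq1 : (1 : ℝ) ≤ q := by exact_mod_cast Nat.one_le_iff_ne_zero.2 (NeZero.ne q)
  haveI : NeZero (N * q ^ 2) := ⟨Nat.mul_ne_zero (NeZero.ne N) (pow_ne_zero _ (NeZero.ne q))⟩
  have hsq : Real.sqrt ((N * q ^ 2 : ℕ) : ℝ) = Real.sqrt N * q := by
    push_cast
    rw [Real.sqrt_mul (by linarith), Real.sqrt_sq (by linarith)]
  obtain ⟨v, X, hP, hv, hX⟩ := p3_of hk hN1 hq1 hFE hfm hL hsq
  refine ⟨X, F, v, hP, hv, hL, fun s hs => ?_⟩
  have h1 := hX (s - 1 / 2) (by simp; linarith)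
  rw [add_sub_cancel] at h1
  exact h1

end form
section ec

variable {N : ℕ} [NeZero N] {f : CuspForm (Gamma0 N : Subgroup (GL (Fin 2) ℝ)) 2} {w : ℝ}
variable {q : ℕ} [NeZero q] {χ : DirichletCharacter ℂ q}

/-- **Twists of elliptic curves.** -/
theorem p3_fac (hf : IsForm N f w) (hχ : χ.IsPrimitive) (hco : Nat.Coprime q N) :
    ∃ (X : ℂ → ℂ) (v : ℂ), P3 1 X ∧ v ≠ 0 ∧ ∀ s : ℂ, 3 / 2 < s.re → X (s - 1) = v * facE f χ s := by
  have hpi := Real.pi_pos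
  obtain ⟨X, F, v, hP, hv, hL, hX⟩ := p3_tw (k := 2) (f := f) (by norm_num) (isNewf_of hf) hχ hco
  have hN0 : (0 : ℝ) < N := by exact_mod_cast Nat.pos_of_ne_zero (NeZero.ne N)
  have hq0 : (0 : ℝ) < q := by exact_mod_cast Nat.pos_of_ne_zero (NeZero.ne q)
  have hsq : 0 < Real.sqrt N := Real.sqrt_pos.2 hN0
  obtain ⟨c, hc⟩ : ∃ c : ℝ, c = Real.sqrt N * q / (2 * Real.pi) := ⟨_, rfl⟩
  have hcp : 0 < c := by rw [hc]; positivity
  have hcc : (c : ℂ) ≠ 0 := by exact_mod_cast hcp.ne'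
  have h00 : W388.lamf f 0 = 0 := by
    have h0 : Frm 2 N (psN N) (lm (k := 2) f) := frm_newf (by norm_num) (isNewf_of hf)
    have h5 : (W388.lamf f 0 : ℂ) = 0 := h0.zero
    exact_mod_cast h5
  have hL' : IsL (l2 f χ) F := hL
  refine ⟨X, v * (c : ℂ) ^ (-(1 / 2) : ℂ), hP, ?_, fun s hs => ?_⟩
  · refine mul_ne_zero hv ?_
    rw [Ne, Complex.cpow_eq_zero_iff]
    exact fun h => hcc h.1
  · have h1 := hX (s - 1 / 2) (by simp; linarith)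
    have e1 : s - 1 / 2 - 1 / 2 = s - 1 := by ring
    rw [e1] at h1
    rw [h1, Pool.Agent.Y693.GL.facE_eq hf hL' hs h00, ← hc]
    unfold W388.GG
    rw [← hc]
    have e2 : (s - 1 / 2 : ℂ) = -(1 / 2) + s := by ring
    have e3 : (s - 1 / 2 : ℂ) + ((((2 : ℕ) : ℤ) : ℂ) - 1) / 2 = s := by
      push_cast
      ring
    rw [e3]
    rw [show ((c : ℂ) ^ (s - 1 / 2 : ℂ)) = (c : ℂ) ^ (-(1 / 2) : ℂ) * (c : ℂ) ^ s by
      rw [e2, Complex.cpow_add _ _ hcc]]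
    ring

end ec


/-! ### the completed function in its own normalisation -/

theorem exists_Lam3 {κ : ℝ} {X : ℂ → ℂ} (h : P3 κ X) (a : ℝ) {G : ℂ → ℂ} {v : ℂ} (hv : v ≠ 0) {σ : ℝ}
    (hG : ∀ s : ℂ, σ < s.re → X (s - a) = v * G s) :
    ∃ Λ : ℂ → ℂ, Differentiable ℂ Λ ∧ (∀ s : ℂ, σ < s.re → Λ s = G s) ∧
      (∃ W : ℂ, ‖W‖ = 1 ∧ ∀ s : ℂ, Λ (2 * a - s) = W * conj (Λ (conj s))) ∧
      P3 κ (fun z => v * Λ ((a : ℂ) + z)) := by
  obtain ⟨Λ, hΛ⟩ : ∃ Λ : ℂ → ℂ, Λ = fun s => v⁻¹ * X (s - a) := ⟨_, rfl⟩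
  have hΛv : ∀ s, Λ s = v⁻¹ * X (s - a) := fun s => by rw [hΛ]
  have hvX : ∀ s, v * Λ s = X (s - a) := fun s => by rw [hΛv, mul_inv_cancel_left₀ hv]
  have hvn : ‖v‖ ≠ 0 := norm_ne_zero_iff.2 hv
  refine ⟨Λ, ?_, ?_, ?_, ?_⟩
  · rw [hΛ]
    exact (h.1.pl.diff.comp (by fun_prop)).const_mul _
  · intro s hs
    rw [hΛv, hG s hs, inv_mul_cancel_left₀ hv]
  · refine ⟨v⁻¹ * conj v, ?_, fun s => ?_⟩
    · rw [norm_mul, norm_inv, Complex.norm_conj, inv_mul_cancel₀ hvn]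
    · have e1 : (2 * a - s - a : ℂ) = -(conj (conj s - a)) := by
        rw [map_sub, Complex.conj_conj, Complex.conj_ofReal]
        ring
      rw [hΛv, e1, h.1.pl.sy.symm, ← hvX, map_mul, mul_assoc]
  · have e : (fun z => v * Λ ((a : ℂ) + z)) = X := by
      funext z
      rw [hvX, add_sub_cancel_left]
    rw [e]
    exact h

section ab

variable {M : ℕ} [NeZero M] (G : Subgroup (DirichletCharacter ℂ M)) [Fintype G]
variable {N : ℕ} [NeZero N] {f : CuspForm (Gamma0 N : Subgroup (GL (Fin 2) ℝ)) 2} {w : ℝ}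

/-- **Elliptic curves over abelian number fields.** -/
theorem p3_ab (hf : IsForm N f w) (hco : Nat.Coprime M N) :
    ∃ (X : ℂ → ℂ) (v : ℂ), P3 (Fintype.card G : ℝ) X ∧ v ≠ 0 ∧
      ∀ s : ℂ, 3 / 2 < s.re → X (s - 1) = v * prodE G f s := by
  classical
  have hone : ∀ χ : G, ∃ (X : ℂ → ℂ) (v : ℂ), P3 1 X ∧ v ≠ 0 ∧ ∀ s : ℂ, 3 / 2 < s.re →
      X (s - 1) = v * facE f (χ : DirichletCharacter ℂ M).primitiveCharacter s := by
    intro χ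
    haveI : NeZero (χ : DirichletCharacter ℂ M).conductor := ⟨DirichletCharacter.conductor_ne_zero _⟩
    exact p3_fac hf (DirichletCharacter.primitiveCharacter_isPrimitive _) (coprime_cond hco _)
  choose X v h1 h2 h3 using hone
  refine ⟨fun w => ∏ χ : G, X χ w, ∏ χ : G, v χ, ?_, Finset.prod_ne_zero_iff.2 fun χ _ => h2 χ, fun s hs => ?_⟩
  · have := p3_prod (Finset.univ : Finset G) ⟨1, Finset.mem_univ _⟩ X fun χ _ => h1 χ
    rw [Finset.card_univ] at this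
    exact this
  · unfold prodE
    rw [← Finset.prod_mul_distrib]
    exact Finset.prod_congr rfl fun χ _ => h3 χ s hs

end ab


section part

variable {N : ℕ} [NeZero N] {k : ℕ} {f : CuspForm (Gamma0 N : Subgroup (GL (Fin 2) ℝ)) (k : ℤ)} {ε : ℝ}
variable {q : ℕ} [NeZero q] {χ : DirichletCharacter ℂ q}

/-- **A twist of a newform as a part of the cohomology of degree `i = k - 1 + 2 r`.** -/
theorem p3_part (hk : 1 ≤ k) (hf : W388.IsNewf N k f ε) (hχ : χ.IsPrimitive) (hco : Nat.Coprime q N)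
    {i r : ℕ} (hi : k + 2 * r = i + 1) :
    ∃ (X : ℂ → ℂ) (v : ℂ), P3 1 X ∧ v ≠ 0 ∧ ∀ s : ℂ, (i : ℝ) / 2 + 1 < s.re → ∃ L : ℂ,
      HasProd (fun p : Nat.Primes =>
        (1 - χ ((p : ℕ) : ZMod q) * (qExpansion 1 f).coeff p * ((p : ℕ) : ℂ) ^ ((r : ℂ) - s) +
          (if (p : ℕ) ∣ N then 0 else χ ((p : ℕ) : ZMod q) ^ 2 * ((p : ℕ) : ℂ) ^ ((i : ℂ) - 2 * s)))⁻¹) L ∧
      X (s - ((((i : ℝ) + 1) / 2 : ℝ) : ℂ)) =
        v * (((Real.sqrt N * q / (2 * Real.pi) : ℝ) : ℂ) ^ s * Complex.Gamma (s - r) * L) := by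
  have hpi := Real.pi_pos
  obtain ⟨X, F, v, hP, hv, hL, hX⟩ := p3_tw hk hf hχ hco
  have hN0 : (0 : ℝ) < N := by exact_mod_cast Nat.pos_of_ne_zero (NeZero.ne N)
  have hq0 : (0 : ℝ) < q := by exact_mod_cast Nat.pos_of_ne_zero (NeZero.ne q)
  have hsq : 0 < Real.sqrt N := Real.sqrt_pos.2 hN0
  obtain ⟨c, hc⟩ : ∃ c : ℝ, c = Real.sqrt N * q / (2 * Real.pi) := ⟨_, rfl⟩
  have hcp : 0 < c := by rw [hc]; positivity
  have hcc : (c : ℂ) ≠ 0 := by exact_mod_cast hcp.ne'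
  have hir : (k : ℂ) + 2 * r = i + 1 := by exact_mod_cast hi
  have hik : (k : ℂ) = i + 1 - 2 * r := by linear_combination hir
  have hikr : (k : ℝ) = i + 1 - 2 * r := by
    have h : (k : ℝ) + 2 * r = i + 1 := by exact_mod_cast hi
    linarith
  refine ⟨X, v * (c : ℂ) ^ (-((i : ℂ) / 2)), hP, ?_, fun s hs => ?_⟩
  · refine mul_ne_zero hv ?_
    rw [Ne, Complex.cpow_eq_zero_iff]
    exact fun h => hcc h.1
  have hs' : 1 < (s - (i : ℂ) / 2).re := by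
    have e : (s - (i : ℂ) / 2).re = s.re - (i : ℝ) / 2 := by
      rw [Complex.sub_re]
      congr 1
      rw [show ((i : ℂ) / 2) = (((i : ℝ) / 2 : ℝ) : ℂ) by push_cast; ring, Complex.ofReal_re]
    rw [e]
    linarith
  refine ⟨F (s - (i : ℂ) / 2), ?_, ?_⟩
  · have h1 := euler_tw hk hf hL hs'
    convert h1 using 2 with p
    have hp := p.2
    have hp0 : (0 : ℝ) < (p : ℕ) := by exact_mod_cast hp.pos
    have hpc : (((p : ℕ)) : ℂ) ≠ 0 := by exact_mod_cast hp.ne_zero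
    have hcr : (qExpansion 1 f).coeff (p : ℕ) = ((((qExpansion 1 f).coeff (p : ℕ)).re : ℝ) : ℂ) := by
      apply Complex.ext
      · simp
      · have h2 := hf.real (p : ℕ)
        rw [h2]
        simp
    have e1 : (W388.lamf f p : ℂ) * ((p : ℕ) : ℂ) ^ (-(s - (i : ℂ) / 2)) =
        (qExpansion 1 f).coeff (p : ℕ) * ((p : ℕ) : ℂ) ^ ((r : ℂ) - s) := by
      unfold W388.lamf
      rw [Complex.ofReal_div, ← hcr, Complex.ofReal_cpow hp0.le, Complex.ofReal_natCast]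
      have e2 : ((((((k : ℕ) : ℤ) : ℝ) - 1) / 2 : ℝ) : ℂ) = ((k : ℂ) - 1) / 2 := by
        push_cast
        ring
      rw [e2, div_mul_eq_mul_div, mul_div_assoc, ← Complex.cpow_sub _ _ hpc]
      congr 2
      rw [hik]
      ring
    have e3 : ((p : ℕ) : ℂ) ^ ((i : ℂ) - 2 * s) = ((p : ℕ) : ℂ) ^ (-2 * (s - (i : ℂ) / 2)) := by
      congr 1
      ring
    rw [e3, mul_assoc (χ ((p : ℕ) : ZMod q)) (W388.lamf f p : ℂ), e1, ← mul_assoc]
  · have h1 := hX (s - (i : ℂ) / 2) hs'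
    have e1 : s - (i : ℂ) / 2 - 1 / 2 = s - ((((i : ℝ) + 1) / 2 : ℝ) : ℂ) := by
      push_cast
      ring
    rw [e1] at h1
    rw [h1]
    unfold W388.GG
    rw [← hc]
    have e2 : s - (i : ℂ) / 2 + ((((k : ℕ) : ℤ) : ℂ) - 1) / 2 = s - r := by
      push_cast
      rw [hik]
      ring
    rw [e2, show (s - (i : ℂ) / 2 : ℂ) = -((i : ℂ) / 2) + s by ring, Complex.cpow_add _ _ hcc]
    ring

end part

section fam

/-- products of several parts -/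
theorem p3_parts {ι : Type} [Fintype ι] [Nonempty ι] {σ : ℝ} {a : ℂ} (fac : ι → Nat.Primes → ℂ → ℂ)
    (gm : ι → ℂ → ℂ)
    (h : ∀ j, ∃ (X : ℂ → ℂ) (v : ℂ), P3 1 X ∧ v ≠ 0 ∧ ∀ s : ℂ, σ < s.re → ∃ L : ℂ,
      HasProd (fun p : Nat.Primes => (fac j p s)⁻¹) L ∧ X (s - a) = v * (gm j s * L)) :
    ∃ (X : ℂ → ℂ) (v : ℂ), P3 (Fintype.card ι : ℝ) X ∧ v ≠ 0 ∧ ∀ s : ℂ, σ < s.re → ∃ L : ℂ,
      HasProd (fun p : Nat.Primes => (∏ j, fac j p s)⁻¹) L ∧ X (s - a) = v * ((∏ j, gm j s) * L) := by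
  classical
  choose X v h1 h2 h3 using h
  obtain ⟨j0⟩ := (inferInstance : Nonempty ι)
  refine ⟨fun w => ∏ j, X j w, ∏ j, v j, ?_, Finset.prod_ne_zero_iff.2 fun j _ => h2 j, fun s hs => ?_⟩
  · have := p3_prod (Finset.univ : Finset ι) ⟨j0, Finset.mem_univ _⟩ X fun j _ => h1 j
    rw [Finset.card_univ] at this
    exact this
  · choose L h4 h5 using fun j => h3 j s hs
    refine ⟨∏ j, L j, ?_, ?_⟩
    · have h6 : HasProd (fun p : Nat.Primes => ∏ j, (fac j p s)⁻¹) (∏ j, L j) :=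
        hasProd_prod fun j _ => h4 j
      simpa only [Finset.prod_inv_distrib] using h6
    · rw [← Finset.prod_mul_distrib, ← Finset.prod_mul_distrib]
      exact Finset.prod_congr rfl fun j _ => h5 j

/-- the completed function of several parts -/
theorem lam_parts3 {κ : ℝ} {X : ℂ → ℂ} {v : ℂ} (hP : P3 κ X) (hv : v ≠ 0) {σ a : ℝ} {P : Nat.Primes → ℂ → ℂ}
    {gm : ℂ → ℂ}
    (h : ∀ s : ℂ, σ < s.re → ∃ L : ℂ,
      HasProd (fun p : Nat.Primes => (P p s)⁻¹) L ∧ X (s - a) = v * (gm s * L)) :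
    ∃ Λ : ℂ → ℂ, Differentiable ℂ Λ ∧
      (∀ s : ℂ, σ < s.re → ∃ L : ℂ, HasProd (fun p : Nat.Primes => (P p s)⁻¹) L ∧ Λ s = gm s * L) ∧
      (∀ Λ' : ℂ → ℂ, Differentiable ℂ Λ' →
        (∀ s : ℂ, σ < s.re → ∃ L : ℂ, HasProd (fun p : Nat.Primes => (P p s)⁻¹) L ∧ Λ' s = gm s * L) → Λ' = Λ) ∧
      (∃ W : ℂ, ‖W‖ = 1 ∧ ∀ s : ℂ, Λ (2 * a - s) = W * conj (Λ (conj s))) ∧
      P3 κ (fun z => v * Λ ((a : ℂ) + z)) := by
  obtain ⟨Λ, h1, h2, h3, h4⟩ := exists_Lam3 hP a (G := fun s => gm s * ∏' p : Nat.Primes, (P p s)⁻¹) hv (σ := σ)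
    (fun s hs => by
      obtain ⟨L, h5, h6⟩ := h s hs
      rw [h5.tprod_eq]
      exact h6)
  refine ⟨Λ, h1, fun s hs => ?_, fun Λ' h5 h6 => ?_, h3, h4⟩
  · obtain ⟨L, h5, h6⟩ := h s hs
    refine ⟨L, h5, ?_⟩
    rw [h2 s hs, h5.tprod_eq]
  · refine uniq h1 h5 ⟨σ, h2⟩ ⟨σ, fun s hs => ?_⟩
    obtain ⟨L, h7, h8⟩ := h6 s hs
    rw [h8, h7.tprod_eq]

end fam


section nb

variable {N : ℕ} [NeZero N] {k : ℕ} {ψ : DirichletCharacter ℂ N}
  {f : CuspForm (Gamma1 N : Subgroup (GL (Fin 2) ℝ)) (k : ℤ)} {η : ℂ}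
variable {q : ℕ} [NeZero q] {χ : DirichletCharacter ℂ q}

/-- **Twists of newforms with nebentypus.** -/
theorem p3_twc (hk : 1 ≤ k) (hf : W388.IsNewfC N k ψ f η) (hχ : χ.IsPrimitive) (hco : Nat.Coprime q N) :
    ∃ (X F : ℂ → ℂ) (v : ℂ), P3 1 X ∧ v ≠ 0 ∧ IsL (lxc f χ) F ∧
      ∀ s : ℂ, 1 < s.re → X (s - 1 / 2) = v * (W388.GG k N q s * F s) := by
  obtain ⟨F, hFE, hL⟩ := exists_LC hk hf hχ hco
  have hfm := frm_twc hk hf hχ hco
  have hN1 : (1 : ℝ) ≤ N := by exact_mod_cast Nat.one_le_iff_ne_zero.2 (NeZero.ne N)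
  have hq1 : (1 : ℝ) ≤ q := by exact_mod_cast Nat.one_le_iff_ne_zero.2 (NeZero.ne q)
  haveI : NeZero (N * q ^ 2) := ⟨Nat.mul_ne_zero (NeZero.ne N) (pow_ne_zero _ (NeZero.ne q))⟩
  have hsq : Real.sqrt ((N * q ^ 2 : ℕ) : ℝ) = Real.sqrt N * q := by
    push_cast
    rw [Real.sqrt_mul (by linarith), Real.sqrt_sq (by linarith)]
  obtain ⟨v, X, hP, hv, hX⟩ := p3_of hk hN1 hq1 hFE hfm hL hsq
  refine ⟨X, F, v, hP, hv, hL, fun s hs => ?_⟩
  have h1 := hX (s - 1 / 2) (by simp; linarith)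
  rw [add_sub_cancel] at h1
  exact h1

/-- **A twist of a newform with nebentypus as a part of the cohomology of degree `i = k - 1 + 2 r`.** -/
theorem p3_partc (hk : 1 ≤ k) (hf : W388.IsNewfC N k ψ f η) (hχ : χ.IsPrimitive) (hco : Nat.Coprime q N)
    {i r : ℕ} (hi : k + 2 * r = i + 1) :
    ∃ (X : ℂ → ℂ) (v : ℂ), P3 1 X ∧ v ≠ 0 ∧ ∀ s : ℂ, (i : ℝ) / 2 + 1 < s.re → ∃ L : ℂ,
      HasProd (fun p : Nat.Primes =>
        (1 - χ ((p : ℕ) : ZMod q) * (qExpansion 1 f).coeff p * ((p : ℕ) : ℂ) ^ ((r : ℂ) - s) +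
          χ ((p : ℕ) : ZMod q) ^ 2 * ψ ((p : ℕ) : ZMod N) * ((p : ℕ) : ℂ) ^ ((i : ℂ) - 2 * s))⁻¹) L ∧
      X (s - ((((i : ℝ) + 1) / 2 : ℝ) : ℂ)) =
        v * (((Real.sqrt N * q / (2 * Real.pi) : ℝ) : ℂ) ^ s * Complex.Gamma (s - r) * L) := by
  have hpi := Real.pi_pos
  obtain ⟨X, F, v, hP, hv, hL, hX⟩ := p3_twc hk hf hχ hco
  have hN0 : (0 : ℝ) < N := by exact_mod_cast Nat.pos_of_ne_zero (NeZero.ne N)
  have hq0 : (0 : ℝ) < q := by exact_mod_cast Nat.pos_of_ne_zero (NeZero.ne q)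
  have hsq : 0 < Real.sqrt N := Real.sqrt_pos.2 hN0
  obtain ⟨c, hc⟩ : ∃ c : ℝ, c = Real.sqrt N * q / (2 * Real.pi) := ⟨_, rfl⟩
  have hcp : 0 < c := by rw [hc]; positivity
  have hcc : (c : ℂ) ≠ 0 := by exact_mod_cast hcp.ne'
  have hir : (k : ℂ) + 2 * r = i + 1 := by exact_mod_cast hi
  have hik : (k : ℂ) = i + 1 - 2 * r := by linear_combination hir
  refine ⟨X, v * (c : ℂ) ^ (-((i : ℂ) / 2)), hP, ?_, fun s hs => ?_⟩
  · refine mul_ne_zero hv ?_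
    rw [Ne, Complex.cpow_eq_zero_iff]
    exact fun h => hcc h.1
  have hs' : 1 < (s - (i : ℂ) / 2).re := by
    have e : (s - (i : ℂ) / 2).re = s.re - (i : ℝ) / 2 := by
      rw [Complex.sub_re]
      congr 1
      rw [show ((i : ℂ) / 2) = (((i : ℝ) / 2 : ℝ) : ℂ) by push_cast; ring, Complex.ofReal_re]
    rw [e]
    linarith
  refine ⟨F (s - (i : ℂ) / 2), ?_, ?_⟩
  · have h1 := euler_twc hk hf hL hs'
    convert h1 using 2 with p
    have hp := p.2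
    have hp0 : (0 : ℝ) < (p : ℕ) := by exact_mod_cast hp.pos
    have hpc : (((p : ℕ)) : ℂ) ≠ 0 := by exact_mod_cast hp.ne_zero
    have e1 : W388.lamC f p * ((p : ℕ) : ℂ) ^ (-(s - (i : ℂ) / 2)) =
        (qExpansion 1 f).coeff (p : ℕ) * ((p : ℕ) : ℂ) ^ ((r : ℂ) - s) := by
      unfold W388.lamC
      rw [Complex.ofReal_cpow hp0.le, Complex.ofReal_natCast]
      have e2 : ((((((k : ℕ) : ℤ) : ℝ) - 1) / 2 : ℝ) : ℂ) = ((k : ℂ) - 1) / 2 := by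
        push_cast
        ring
      rw [e2, div_mul_eq_mul_div, mul_div_assoc, ← Complex.cpow_sub _ _ hpc]
      congr 2
      rw [hik]
      ring
    have e3 : ((p : ℕ) : ℂ) ^ ((i : ℂ) - 2 * s) = ((p : ℕ) : ℂ) ^ (-2 * (s - (i : ℂ) / 2)) := by
      congr 1
      ring
    rw [e3, mul_assoc (χ ((p : ℕ) : ZMod q)) (W388.lamC f p), e1, ← mul_assoc]
  · have h1 := hX (s - (i : ℂ) / 2) hs'
    have e1 : s - (i : ℂ) / 2 - 1 / 2 = s - ((((i : ℝ) + 1) / 2 : ℝ) : ℂ) := by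
      push_cast
      ring
    rw [e1] at h1
    rw [h1]
    unfold W388.GG
    rw [← hc]
    have e2 : s - (i : ℂ) / 2 + ((((k : ℕ) : ℤ) : ℂ) - 1) / 2 = s - r := by
      push_cast
      rw [hik]
      ring
    rw [e2, show (s - (i : ℂ) / 2 : ℂ) = -((i : ℂ) / 2) + s by ring, Complex.cpow_add _ _ hcc]
    ring

/-- **Newforms.** -/
theorem p3_newf (hk : 1 ≤ k) (hf : W388.IsNewfC N k ψ f η) :
    ∃ (X F : ℂ → ℂ) (v : ℂ), P3 1 X ∧ v ≠ 0 ∧ IsL (lmc f) F ∧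
      ∀ s : ℂ, 1 < s.re → X (s - 1 / 2) = v * (W388.GG k N 1 s * F s) := by
  obtain ⟨X, F, v, h1, h2, h3, h4⟩ := p3_twc (q := 1) (χ := 1) hk hf DirichletCharacter.isPrimitive_one_level_one
    (Nat.coprime_one_left N)
  refine ⟨X, F, v, h1, h2, ⟨h3.diff, fun s hs => ?_⟩, fun s hs => ?_⟩
  · rw [h3.ser s hs]
    refine tsum_congr fun n => ?_
    unfold lxc
    rw [one_val, one_mul]
  · rw [h4 s hs, Nat.cast_one]

/-- **A newform with nebentypus as a part of the cohomology of degree `i = k - 1 + 2 r`.** -/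
theorem p3_new (hk : 1 ≤ k) (hf : W388.IsNewfC N k ψ f η) {i r : ℕ} (hi : k + 2 * r = i + 1) :
    ∃ (X : ℂ → ℂ) (v : ℂ), P3 1 X ∧ v ≠ 0 ∧ ∀ s : ℂ, (i : ℝ) / 2 + 1 < s.re → ∃ L : ℂ,
      HasProd (fun p : Nat.Primes =>
        (1 - (qExpansion 1 f).coeff p * ((p : ℕ) : ℂ) ^ ((r : ℂ) - s) +
          ψ ((p : ℕ) : ZMod N) * ((p : ℕ) : ℂ) ^ ((i : ℂ) - 2 * s))⁻¹) L ∧
      X (s - ((((i : ℝ) + 1) / 2 : ℝ) : ℂ)) =
        v * (((Real.sqrt N / (2 * Real.pi) : ℝ) : ℂ) ^ s * Complex.Gamma (s - r) * L) := by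
  obtain ⟨X, v, h1, h2, h3⟩ := p3_partc (q := 1) (χ := 1) hk hf DirichletCharacter.isPrimitive_one_level_one
    (Nat.coprime_one_left N) hi
  refine ⟨X, v, h1, h2, fun s hs => ?_⟩
  obtain ⟨L, h4, h5⟩ := h3 s hs
  refine ⟨L, ?_, ?_⟩
  · refine h4.congr_fun fun p => ?_
    rw [one_val, one_mul, one_pow, one_mul]
  · rw [h5, Nat.cast_one, mul_one]

end nb

end Pool.Agent.U156.LB
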